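import Pool.Agent.Helper1.MT.DefsU

/-!
# Project MT, module MU-C: the shifts with spacing `E`, in the interval `[D, 2 D]`
-/

set_option autoImplicit false

open Finset

namespace Pool.Agent.Helper37.MT

open Pool.Agent.Helper1.MT

/-- The shifts. -/
private def hh (Q D : ℕ) {M κ0 : ℕ} (a : Fin M × Fin κ0) : ℕ := Q * (a.1.val * D + a.2.val)

private theorem hh_inj {Q D M κ0 : ℕ} (hQ : 0 < Q) (hκ : κ0 ≤ D) :
    Function.Injective (fun a : Fin M × Fin κ0 => hh Q D a) := by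
  rintro ⟨a, b⟩ ⟨c, d⟩ h
  simp only [hh] at h
  have h1 := Nat.eq_of_mul_eq_mul_left hQ h
  have hb : b.val < D := b.isLt.trans_le hκ
  have hd : d.val < D := d.isLt.trans_le hκ
  have hac : a.val = c.val := by
    rcases lt_trichotomy a.val c.val with h2 | h2 | h2
    · have : (a.val + 1) * D ≤ c.val * D := Nat.mul_le_mul_right _ h2
      nlinarith
    · exact h2
    · have : (c.val + 1) * D ≤ a.val * D := Nat.mul_le_mul_right _ h2
      nlinarith
  have hbd : b.val = d.val := by rw [hac] at h1; omega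
  rw [Prod.mk.injEq]
  exact ⟨Fin.ext hac, Fin.ext hbd⟩

/-- A residue which avoids the shifts. -/
private theorem avoid {M κ0 p : ℕ} (hp : M * κ0 < p) (h : Fin M × Fin κ0 → ℕ) :
    ∃ r : ℕ, ∀ a, ¬ p ∣ r + h a := by
  by_contra hcon
  push Not at hcon
  choose f hf using hcon
  have hinj : Set.InjOn f (range p : Set ℕ) := by
    intro r hr s hs hrs
    have h1 := hf r
    have h2 := hf s
    rw [← hrs] at h2
    have h3 : r ≡ s [MOD p] := by
      have h4 : r + h (f r) ≡ s + h (f r) [MOD p] :=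
        ((Nat.modEq_zero_iff_dvd.2 h1).trans (Nat.modEq_zero_iff_dvd.2 h2).symm)
      exact Nat.ModEq.add_right_cancel' _ h4
    have hr' := Finset.mem_range.1 (Finset.mem_coe.1 hr)
    have hs' := Finset.mem_range.1 (Finset.mem_coe.1 hs)
    exact h3.eq_of_lt_of_lt hr' hs'
  have hcard : (range p).card ≤ (univ : Finset (Fin M × Fin κ0)).card :=
    Finset.card_le_card_of_injOn f (fun _ _ => Finset.mem_coe.2 (mem_univ _)) hinj
  rw [card_range, card_univ, Fintype.card_prod, Fintype.card_fin, Fintype.card_fin] at hcard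
  omega

/-- The values of the linear forms. -/
private def ff (κ0 : ℕ) (i : ℕ × ℕ) (E : ℕ) : ℕ := i.1 * E + i.2 - κ0

private theorem ff_cast {κ0 : ℕ} {i : ℕ × ℕ} {E : ℕ} (hi : 0 < i.1) (hE : κ0 ≤ E) :
    ((ff κ0 i E : ℕ) : ℤ) = (i.1 : ℤ) * E + i.2 - κ0 := by
  have h1 : κ0 ≤ i.1 * E + i.2 := by
    have : E ≤ i.1 * E := Nat.le_mul_of_pos_left _ hi
    omega
  unfold ff
  rw [Nat.cast_sub h1]
  push_cast
  ring

private theorem ff_pos {κ0 : ℕ} {i : ℕ × ℕ} {E : ℕ} (hi : 0 < i.1) (hE : κ0 < E) :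
    0 < ff κ0 i E := by
  have : E ≤ i.1 * E := Nat.le_mul_of_pos_left _ hi
  unfold ff
  omega

private theorem ff_le {M κ0 D : ℕ} {i : ℕ × ℕ} {E : ℕ} (hi : i.1 < M) (hi2 : i.2 < 2 * κ0)
    (hκ : κ0 ≤ D) (hE : E ≤ 2 * D) : ff κ0 i E ≤ 3 * M * D := by
  have h1 : (i.1 + 1) * E ≤ M * E := Nat.mul_le_mul_right _ hi
  have h2 : M * E ≤ M * (2 * D) := Nat.mul_le_mul_left _ hE
  have h3 : 1 * D ≤ M * D := Nat.mul_le_mul_right _ (by omega)
  have h4 : i.1 * E ≤ M * E := by nlinarith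
  unfold ff
  have h5 : M * (2 * D) + M * D = 3 * M * D := by ring
  omega

/-- Counting the spacings for which a given form is divisible by `p`. -/
private theorem count_le {p κ0 D : ℕ} {i : ℕ × ℕ} (hp : p.Prime) (hg0 : 0 < i.1) (hgp : i.1 < p)
    (hκ : κ0 ≤ D) :
    (((Icc D (2 * D)).filter (fun E => p ∣ ff κ0 i E)).card : ℝ) ≤ D / p + 2 := by
  have hinj : Set.InjOn (fun E : ℕ => E / p)
      (((Icc D (2 * D)).filter (fun E => p ∣ ff κ0 i E) : Finset ℕ) : Set ℕ) := by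
    intro E hE E' hE' hEE
    rw [Finset.mem_coe, mem_filter, mem_Icc] at hE hE'
    have h1 : (p : ℤ) ∣ (i.1 : ℤ) * E + i.2 - κ0 := by
      rw [← ff_cast hg0 (hκ.trans hE.1.1)]
      exact Int.natCast_dvd_natCast.2 hE.2
    have h2 : (p : ℤ) ∣ (i.1 : ℤ) * E' + i.2 - κ0 := by
      rw [← ff_cast hg0 (hκ.trans hE'.1.1)]
      exact Int.natCast_dvd_natCast.2 hE'.2
    have h3 : (p : ℤ) ∣ (i.1 : ℤ) * ((E' : ℤ) - E) := by
      have h4 := dvd_sub h2 h1
      have h5 : (i.1 : ℤ) * E' + i.2 - κ0 - ((i.1 : ℤ) * E + i.2 - κ0) =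
          (i.1 : ℤ) * ((E' : ℤ) - E) := by ring
      rwa [h5] at h4
    have h6 : (p : ℤ) ∣ (E' : ℤ) - E := by
      rcases (Nat.prime_iff_prime_int.1 hp).dvd_or_dvd h3 with h7 | h7
      · exact absurd (Nat.le_of_dvd hg0 (Int.natCast_dvd_natCast.1 h7)) (by omega)
      · exact h7
    have h8 : E % p = E' % p := (Nat.modEq_iff_dvd).2 h6
    have h9 : E / p = E' / p := hEE
    rw [← Nat.div_add_mod E p, ← Nat.div_add_mod E' p, h8, h9]
  have hmaps : ∀ E ∈ (Icc D (2 * D)).filter (fun E => p ∣ ff κ0 i E),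
      E / p ∈ Icc (D / p) (2 * D / p) := by
    intro E hE
    rw [mem_filter, mem_Icc] at hE
    rw [mem_Icc]
    exact ⟨Nat.div_le_div_right hE.1.1, Nat.div_le_div_right hE.1.2⟩
  have hc := Finset.card_le_card_of_injOn (fun E : ℕ => E / p)
    (fun E hE => Finset.mem_coe.2 (hmaps E hE)) hinj
  rw [Nat.card_Icc] at hc
  have hp0 : (0 : ℝ) < p := by exact_mod_cast hp.pos
  have h1 : ((2 * D / p : ℕ) : ℝ) ≤ (2 * D : ℕ) / p := Nat.cast_div_le
  have h2 : (D : ℝ) / p < (D / p : ℕ) + 1 := by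
    rw [div_lt_iff₀ hp0]
    have h3 := Nat.lt_div_mul_add (a := D) hp.pos
    have h4 : (D : ℝ) < ((D / p * p + p : ℕ) : ℝ) := by exact_mod_cast h3
    push_cast at h4
    linarith
  have h5 : D / p ≤ 2 * D / p + 1 := (Nat.div_le_div_right (by omega)).trans (Nat.le_succ _)
  have h6 : (((Icc D (2 * D)).filter (fun E => p ∣ ff κ0 i E)).card : ℝ) ≤
      ((2 * D / p + 1 - D / p : ℕ) : ℝ) := by exact_mod_cast hc
  rw [Nat.cast_sub h5] at h6
  push_cast at h6 h1
  have h7 : (2 * (D : ℝ)) / p = D / p + D / p := by ring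
  linarith

/-- The sum over the primes. -/
private theorem sum_bound {D0 N : ℕ} (D : ℝ) (hD : 0 ≤ D) (h0 : 0 < D0) :
    ∑ p ∈ (Icc D0 N).filter Nat.Prime, (1 / (p : ℝ)) * (D / p + 2) ≤
      D * (2 / D0) + 2 * (1 + Real.log N) := by
  have h1 : ∑ p ∈ (Icc D0 N).filter Nat.Prime, (1 / (p : ℝ)) * (D / p + 2) ≤
      ∑ p ∈ Icc D0 N, (1 / (p : ℝ)) * (D / p + 2) := by
    apply sum_le_sum_of_subset_of_nonneg (filter_subset _ _)
    intro i _ _
    positivity
  have h2 : ∑ p ∈ Icc D0 N, (1 / (p : ℝ)) * (D / p + 2) =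
      D * ∑ p ∈ Icc D0 N, ((p : ℝ) ^ 2)⁻¹ + 2 * ∑ p ∈ Icc D0 N, (p : ℝ)⁻¹ := by
    rw [mul_sum, mul_sum, ← sum_add_distrib]
    apply sum_congr rfl
    intro p hp
    have : (p : ℝ) ≠ 0 := by
      have := (mem_Icc.1 hp).1
      have h : p ≠ 0 := by omega
      exact_mod_cast h
    field_simp
  have h3 : ∑ p ∈ Icc D0 N, ((p : ℝ) ^ 2)⁻¹ ≤ 2 / D0 := by
    have h4 := sum_Ioo_inv_sq_le (α := ℝ) (D0 - 1) (N + 1)
    have h5 : Ioo (D0 - 1) (N + 1) = Icc D0 N := by
      ext x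
      rw [mem_Ioo, mem_Icc]
      omega
    rw [h5] at h4
    have h6 : ((D0 - 1 : ℕ) : ℝ) + 1 = D0 := by
      have : D0 - 1 + 1 = D0 := by omega
      exact_mod_cast this
    rw [h6] at h4
    exact h4
  have h4 : ∑ p ∈ Icc D0 N, (p : ℝ)⁻¹ ≤ 1 + Real.log N := by
    have h5 : ∑ p ∈ Icc D0 N, (p : ℝ)⁻¹ ≤ ∑ p ∈ Icc 1 N, (p : ℝ)⁻¹ := by
      apply sum_le_sum_of_subset_of_nonneg
      · intro x hx
        rw [mem_Icc] at hx ⊢
        omega
      · intro i _ _
        positivity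
    have h6 := harmonic_le_one_add_log N
    rw [harmonic_eq_sum_Icc] at h6
    push_cast at h6
    exact h5.trans h6
  rw [h2] at h1
  nlinarith

/-- The good spacing. -/
private theorem exists_spacing {M κ0 D0 : ℕ} (hM : 0 < M) (hκ0 : 0 < κ0)
    (hD0 : (M * κ0 + 2) ^ 10 ≤ D0) {D : ℕ} (hD : 768 * (M * κ0) ^ 2 * M ≤ D) (hκ : κ0 ≤ D) :
    ∃ E, D ≤ E ∧ E ≤ 2 * D ∧ ∑ i ∈ Ico 1 M ×ˢ range (2 * κ0),
      ∑ p ∈ ((Icc D0 (3 * M * D)).filter Nat.Prime).filter (fun p => p ∣ ff κ0 i E),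
        1 / (p : ℝ) ≤ 1 := by
  classical
  set P := (Icc D0 (3 * M * D)).filter Nat.Prime with hP
  set I := Ico 1 M ×ˢ range (2 * κ0) with hI
  set K := M * κ0 with hK
  have hK1 : 1 ≤ K := Nat.mul_pos hM hκ0
  have hKD0 : K + 2 ≤ D0 := (Nat.le_self_pow (by norm_num) _).trans hD0
  have hMK : M ≤ K := Nat.le_mul_of_pos_right _ hκ0
  have hDpos : 0 < D := by
    refine lt_of_lt_of_le ?_ hD
    positivity
  have hmain : ∑ E ∈ Icc D (2 * D), ∑ i ∈ I, ∑ p ∈ P.filter (fun p => p ∣ ff κ0 i E),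
      1 / (p : ℝ) ≤ ∑ E ∈ Icc D (2 * D), (1 : ℝ) := by
    have h1 : ∑ E ∈ Icc D (2 * D), ∑ i ∈ I, ∑ p ∈ P.filter (fun p => p ∣ ff κ0 i E),
        1 / (p : ℝ) = ∑ i ∈ I, ∑ p ∈ P, (1 / (p : ℝ)) *
          (((Icc D (2 * D)).filter (fun E => p ∣ ff κ0 i E)).card : ℝ) := by
      rw [sum_comm]
      apply sum_congr rfl
      intro i _
      simp_rw [sum_filter]
      rw [sum_comm]
      apply sum_congr rfl
      intro p _
      rw [← sum_filter, sum_const, nsmul_eq_mul, mul_comm]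
    have h2 : ∑ i ∈ I, ∑ p ∈ P, (1 / (p : ℝ)) *
          (((Icc D (2 * D)).filter (fun E => p ∣ ff κ0 i E)).card : ℝ) ≤
        ∑ i ∈ I, ((D : ℝ) * (2 / D0) + 2 * (1 + Real.log (3 * M * D : ℕ))) := by
      apply sum_le_sum
      intro i hi
      refine le_trans ?_ (sum_bound (D0 := D0) (N := 3 * M * D) (D : ℝ) (Nat.cast_nonneg _)
        (by omega))
      apply sum_le_sum
      intro p hp
      rw [hP, mem_filter, mem_Icc] at hp
      rw [hI, mem_product, mem_Ico, mem_range] at hi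
      apply mul_le_mul_of_nonneg_left _ (by positivity)
      exact count_le hp.2 (by omega) (by omega) hκ
    have h3 : ((I.card : ℕ) : ℝ) ≤ 2 * K := by
      have : I.card ≤ 2 * K := by
        rw [hI, card_product, Nat.card_Ico, card_range, hK]
        calc (M - 1) * (2 * κ0) ≤ M * (2 * κ0) := Nat.mul_le_mul_right _ (by omega)
          _ = 2 * (M * κ0) := by ring
      exact_mod_cast this
    have hKr : (1 : ℝ) ≤ K := by exact_mod_cast hK1
    have hD0r : ((K : ℝ) + 2) ^ 10 ≤ D0 := by exact_mod_cast hD0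
    have hDr : 768 * (K : ℝ) ^ 2 * M ≤ D := by exact_mod_cast hD
    have hD0pos : (0 : ℝ) < D0 := by
      have : 0 < D0 := by omega
      exact_mod_cast this
    have hMr : (1 : ℝ) ≤ M := by exact_mod_cast hM
    have hDr0 : (0 : ℝ) < D := by exact_mod_cast hDpos
    -- the first part
    have h4 : 2 * (K : ℝ) * ((D : ℝ) * (2 / D0)) ≤ D / 2 := by
      have h5 : 8 * (K : ℝ) ≤ D0 := by
        have h6 : ((K : ℝ) + 2) ^ 2 ≤ ((K : ℝ) + 2) ^ 10 :=
          pow_le_pow_right₀ (by linarith) (by norm_num)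
        nlinarith [sq_nonneg ((K : ℝ) - 2)]
      have h7 : 2 * (K : ℝ) * ((D : ℝ) * (2 / D0)) = D / 2 * (8 * K / D0) := by ring
      rw [h7]
      have h8 : 8 * (K : ℝ) / D0 ≤ 1 := (div_le_one hD0pos).2 h5
      calc (D : ℝ) / 2 * (8 * K / D0) ≤ D / 2 * 1 :=
            mul_le_mul_of_nonneg_left h8 (by positivity)
        _ = D / 2 := by ring
    -- the second part
    have h5 : 2 * (K : ℝ) * (2 * (1 + Real.log (3 * M * D : ℕ))) ≤ D / 2 := by
      push_cast
      set y : ℝ := 3 * M * D with hy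
      have hy0 : 0 < y := by rw [hy]; positivity
      have h6 : 1 + Real.log y ≤ 2 * Real.sqrt y := by
        have h7 : Real.log (Real.sqrt y) ≤ Real.sqrt y - 1 :=
          Real.log_le_sub_one_of_pos (Real.sqrt_pos.2 hy0)
        rw [Real.log_sqrt hy0.le] at h7
        linarith
      have h8 : 16 * (K : ℝ) * Real.sqrt y ≤ D := by
        have h9 : 16 * (K : ℝ) * Real.sqrt y = Real.sqrt ((16 * (K : ℝ)) ^ 2 * y) := by
          rw [Real.sqrt_mul (x := (16 * (K : ℝ)) ^ 2) (by positivity) y,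
            Real.sqrt_sq (by positivity)]
        rw [h9]
        apply Real.sqrt_le_iff.2
        refine ⟨hDr0.le, ?_⟩
        have h10 : (16 * (K : ℝ)) ^ 2 * y = (768 * (K : ℝ) ^ 2 * M) * D := by
          rw [hy]; ring
        rw [h10, pow_two (D : ℝ)]
        exact mul_le_mul_of_nonneg_right hDr hDr0.le
      have h11 : 2 * (K : ℝ) * (2 * (1 + Real.log y)) ≤ 2 * (K : ℝ) * (2 * (2 * Real.sqrt y)) := by
        apply mul_le_mul_of_nonneg_left _ (by positivity)
        linarith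
      linarith
    have hlog : 0 ≤ Real.log (3 * M * D : ℕ) := by
      apply Real.log_natCast_nonneg
    rw [h1]
    refine h2.trans ?_
    rw [sum_const, nsmul_eq_mul, sum_const, nsmul_eq_mul, Nat.card_Icc]
    have h12 : (((2 * D + 1 - D : ℕ)) : ℝ) = D + 1 := by
      have : 2 * D + 1 - D = D + 1 := by omega
      rw [this]
      push_cast
      ring
    rw [h12]
    have h13 : (I.card : ℝ) * ((D : ℝ) * (2 / D0) + 2 * (1 + Real.log (3 * M * D : ℕ))) ≤
        2 * (K : ℝ) * ((D : ℝ) * (2 / D0) + 2 * (1 + Real.log (3 * M * D : ℕ))) := by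
      apply mul_le_mul_of_nonneg_right h3
      positivity
    have h14 : 2 * (K : ℝ) * ((D : ℝ) * (2 / D0) + 2 * (1 + Real.log (3 * M * D : ℕ))) =
        2 * (K : ℝ) * ((D : ℝ) * (2 / D0)) +
          2 * (K : ℝ) * (2 * (1 + Real.log (3 * M * D : ℕ))) := by ring
    linarith
  obtain ⟨E, hE, hE1⟩ := Finset.exists_le_of_sum_le (nonempty_Icc.2 (by omega)) hmain
  rw [mem_Icc] at hE
  exact ⟨E, hE.1, hE.2, hE1⟩

private theorem sum_biUnion_le' (I : Finset (ℕ × ℕ)) (t : ℕ × ℕ → Finset ℕ) (f : ℕ → ℝ)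
    (hf : ∀ p, 0 ≤ f p) : ∑ p ∈ I.biUnion t, f p ≤ ∑ i ∈ I, ∑ p ∈ t i, f p := by
  classical
  induction I using Finset.induction_on with
  | empty => simp
  | insert a s ha ih =>
    rw [biUnion_insert, sum_insert ha]
    have h1 := sum_union_inter (s₁ := t a) (s₂ := s.biUnion t) (f := f)
    have h2 : 0 ≤ ∑ p ∈ t a ∩ s.biUnion t, f p := sum_nonneg fun p _ => hf p
    linarith

theorem shiftsU : ShiftsU := by
  classical
  intro M κ0 D0 hM hκ0 hD0
  set K := M * κ0 with hK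
  have hK1 : 1 ≤ K := Nat.mul_pos hM hκ0
  have hKD0 : K + 2 ≤ D0 := (Nat.le_self_pow (by norm_num) _).trans hD0
  have hMK : M ≤ K := Nat.le_mul_of_pos_right _ hκ0
  have hκK : κ0 ≤ K := Nat.le_mul_of_pos_left _ hM
  refine ⟨(D0 - 1).factorial, D0 + 4 * K + 3 * M + 768 * K ^ 2 * M, Nat.factorial_pos _,
    by omega, ?_⟩
  intro D hD
  set Q := (D0 - 1).factorial with hQ
  have hQ0 : 0 < Q := Nat.factorial_pos _
  have hκD : κ0 < D := by omega
  obtain ⟨E, hDE, hE2, hEs⟩ := exists_spacing hM hκ0 hD0 (D := D) (by rw [← hK]; omega) hκD.le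
  have hκE : κ0 < E := by omega
  set I := Ico 1 M ×ˢ range (2 * κ0) with hI
  set P := (Icc D0 (3 * M * D)).filter Nat.Prime with hP
  set T := I.biUnion (fun i => P.filter (fun p => p ∣ ff κ0 i E)) with hT
  set S := (range D0).filter Nat.Prime ∪ T with hS
  have hTp : ∀ p ∈ T, p.Prime ∧ D0 ≤ p := by
    intro p hp
    rw [hT, mem_biUnion] at hp
    obtain ⟨i, _, hp⟩ := hp
    rw [mem_filter, hP, mem_filter, mem_Icc] at hp
    exact ⟨hp.1.2, hp.1.1.1⟩
  have hSp : ∀ p ∈ S, p.Prime := by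
    intro p hp
    rw [hS, mem_union] at hp
    rcases hp with hp | hp
    · exact (mem_filter.1 hp).2
    · exact (hTp p hp).1
  have hpQ : ∀ p : ℕ, p.Prime → (p ∣ Q ↔ p < D0) := by
    intro p hp
    rw [hQ, hp.dvd_factorial]
    omega
  -- residues
  have hres : ∀ p : ℕ, p.Prime → ∃ r : ℕ, ∀ a : Fin M × Fin κ0, ¬ p ∣ r + hh Q E a := by
    intro p hp
    by_cases hpD : p < D0
    · refine ⟨1, ?_⟩
      intro a hdvd
      have hpQ' : p ∣ hh Q E a := Dvd.dvd.mul_right ((hpQ p hp).2 hpD) _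
      have := (Nat.dvd_add_left hpQ').1 hdvd
      exact hp.one_lt.ne' (Nat.dvd_one.1 this)
    · exact avoid (p := p) (by omega) (fun a : Fin M × Fin κ0 => hh Q E a)
  choose! r hr1 using hres
  have hco : Set.Pairwise (S : Set ℕ) (Function.onFun Nat.Coprime (fun p : ℕ => p)) := by
    intro a ha b hb hab
    exact (Nat.coprime_primes (hSp a (mem_coe.1 ha)) (hSp b (mem_coe.1 hb))).2 hab
  obtain ⟨v, hv⟩ := Nat.chineseRemainderOfFinset r (fun p : ℕ => p) S
    (fun p hp => (hSp p hp).ne_zero) hco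
  set W := ∏ p ∈ S, p with hW
  have hWpos : 0 < W := Finset.prod_pos fun p hp => (hSp p hp).pos
  have hWsmall : ∀ p : ℕ, p.Prime → p < D0 → p ∣ W := by
    intro p hp hpD
    exact dvd_prod_of_mem _ (mem_union_left _ (mem_filter.2 ⟨mem_range.2 hpD, hp⟩))
  have hWT : ∀ p : ℕ, p.Prime → ∀ i ∈ I, p ∣ ff κ0 i E → p ∣ W := by
    intro p hp i hi hdvd
    by_cases hpD : p < D0
    · exact hWsmall p hp hpD
    · apply dvd_prod_of_mem
      refine mem_union_right _ (mem_biUnion.2 ⟨i, hi, mem_filter.2 ⟨mem_filter.2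
        ⟨mem_Icc.2 ⟨by omega, ?_⟩, hp⟩, hdvd⟩⟩)
      rw [hI, mem_product, mem_Ico, mem_range] at hi
      exact (Nat.le_of_dvd (ff_pos (by omega) hκE) hdvd).trans
        (ff_le hi.1.2 hi.2 hκD.le hE2)
  -- the differences
  have hdiff1 : ∀ (a c : Fin M × Fin κ0), c.1.val < a.1.val → ∀ p : ℕ, p.Prime →
      (p : ℤ) ∣ ((a.1.val : ℤ) - c.1.val) * E + ((a.2.val : ℤ) - c.2.val) → p ∣ W := by
    intro a c hac p hp hdvd
    have ha1 := a.1.isLt
    have ha2 := a.2.isLt
    have hc1 := c.1.isLt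
    have hc2 := c.2.isLt
    apply hWT p hp (a.1.val - c.1.val, κ0 + a.2.val - c.2.val)
    · rw [hI, mem_product, mem_Ico, mem_range]
      constructor
      · constructor
        · show 1 ≤ a.1.val - c.1.val
          omega
        · show a.1.val - c.1.val < M
          omega
      · show κ0 + a.2.val - c.2.val < 2 * κ0
        omega
    · apply Int.natCast_dvd_natCast.1
      rw [ff_cast (by show 0 < a.1.val - c.1.val; omega) hκE.le]
      have h1 : (((a.1.val - c.1.val : ℕ)) : ℤ) = (a.1.val : ℤ) - c.1.val := by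
        rw [Nat.cast_sub hac.le]
      have h2 : (((κ0 + a.2.val - c.2.val : ℕ)) : ℤ) = (κ0 : ℤ) + a.2.val - c.2.val := by
        rw [Nat.cast_sub (by omega)]
        push_cast
        ring
      show (p : ℤ) ∣ (((a.1.val - c.1.val : ℕ)) : ℤ) * E +
        (((κ0 + a.2.val - c.2.val : ℕ)) : ℤ) - κ0
      rw [h1, h2]
      have h3 : ((a.1.val : ℤ) - c.1.val) * E + ((κ0 : ℤ) + a.2.val - c.2.val) - κ0 =
          ((a.1.val : ℤ) - c.1.val) * E + ((a.2.val : ℤ) - c.2.val) := by ring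
      rw [h3]
      exact hdvd
  have hdiff : ∀ (a c : Fin M × Fin κ0), a ≠ c → ∀ p : ℕ, p.Prime →
      (p : ℤ) ∣ ((hh Q E a : ℕ) : ℤ) - ((hh Q E c : ℕ) : ℤ) → p ∣ W := by
    intro a c hac p hp hdvd
    have h1 : ((hh Q E a : ℕ) : ℤ) - ((hh Q E c : ℕ) : ℤ) =
        (Q : ℤ) * (((a.1.val : ℤ) - c.1.val) * E + ((a.2.val : ℤ) - c.2.val)) := by
      unfold hh
      push_cast
      ring
    rw [h1] at hdvd
    rcases (Nat.prime_iff_prime_int.1 hp).dvd_or_dvd hdvd with h2 | h2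
    · exact hWsmall p hp ((hpQ p hp).1 (Int.natCast_dvd_natCast.1 h2))
    · rcases lt_trichotomy c.1.val a.1.val with h3 | h3 | h3
      · exact hdiff1 a c h3 p hp h2
      · rw [h3, sub_self, zero_mul, zero_add] at h2
        have h4 : a.2.val ≠ c.2.val := by
          intro h4
          exact hac (Prod.ext (Fin.ext h3.symm) (Fin.ext h4))
        have h5 : p ∣ ((a.2.val : ℤ) - c.2.val).natAbs := Int.natCast_dvd.1 h2
        have h6 := Nat.le_of_dvd (by omega) h5
        have ha2 := a.2.isLt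
        have hc2 := c.2.isLt
        exact hWsmall p hp (by omega)
      · apply hdiff1 c a h3 p hp
        have h4 : ((c.1.val : ℤ) - a.1.val) * E + ((c.2.val : ℤ) - a.2.val) =
            -(((a.1.val : ℤ) - c.1.val) * E + ((a.2.val : ℤ) - c.2.val)) := by ring
        rw [h4]
        exact (dvd_neg).2 h2
  refine ⟨E, W, v, hDE, hE2, ⟨hWpos, hWsmall, fun i j hij p hp h => hdiff i j hij p hp h,
    hh_inj hQ0 hκE.le, ?_⟩, ⟨hWpos, hWsmall, ?_⟩, ?_⟩
  · intro i
    show Nat.Coprime (v + hh Q E i) W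
    refine Nat.Coprime.prod_right fun p hp => ?_
    have hpp := hSp p hp
    rw [Nat.coprime_comm, hpp.coprime_iff_not_dvd]
    intro hdvd
    apply hr1 p hpp i
    have h1 : v + hh Q E i ≡ r p + hh Q E i [MOD p] := Nat.ModEq.add_right _ (hv p hp)
    exact (Nat.modEq_zero_iff_dvd).1 (h1.symm.trans ((Nat.modEq_zero_iff_dvd).2 hdvd))
  · have h1 : W.primeFactors = S := by
      rw [hW]
      exact Nat.primeFactors_prod hSp
    rw [h1]
    have h2 : S.filter (fun p => D0 ≤ p) ⊆ T := by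
      intro p hp
      rw [mem_filter, hS, mem_union, mem_filter, mem_range] at hp
      rcases hp with ⟨hp | hp, hp2⟩
      · omega
      · exact hp
    calc ∑ p ∈ S.filter (fun p => D0 ≤ p), 1 / (p : ℝ) ≤ ∑ p ∈ T, 1 / (p : ℝ) := by
          apply sum_le_sum_of_subset_of_nonneg h2
          intro i _ _
          positivity
      _ ≤ ∑ i ∈ I, ∑ p ∈ P.filter (fun p => p ∣ ff κ0 i E), 1 / (p : ℝ) := by
          rw [hT]
          exact sum_biUnion_le' _ _ _ (fun p => by positivity)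
      _ ≤ 1 := hEs
  · -- the bound for `W`
    have hD1 : D0 + 4 * K + 3 * M ≤ D := by omega
    have h1 : W ≤ (∏ p ∈ (range D0).filter Nat.Prime, p) * ∏ p ∈ T, p := by
      rw [hW, hS, prod_union]
      rw [Finset.disjoint_left]
      intro p hp hp2
      have h3 := mem_range.1 (mem_filter.1 hp).1
      have h4 := (hTp p hp2).2
      omega
    have h2 : ∏ p ∈ (range D0).filter Nat.Prime, p ≤ D ^ D0 := by
      calc ∏ p ∈ (range D0).filter Nat.Prime, p ≤ D ^ ((range D0).filter Nat.Prime).card := by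
            apply prod_le_pow_card
            intro p hp
            have := mem_range.1 (mem_filter.1 hp).1
            omega
        _ ≤ D ^ D0 := by
            apply Nat.pow_le_pow_right (by omega)
            calc ((range D0).filter Nat.Prime).card ≤ (range D0).card := card_filter_le _ _
              _ = D0 := card_range _
    have h3 : ∏ p ∈ T, p ≤ ∏ i ∈ I, ff κ0 i E := by
      apply Nat.le_of_dvd
      · apply prod_pos
        intro i hi
        rw [hI, mem_product, mem_Ico, mem_range] at hi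
        exact ff_pos (by omega) hκE
      · apply Finset.prod_primes_dvd
        · intro p hp
          exact (hTp p hp).1.prime
        · intro p hp
          rw [hT, mem_biUnion] at hp
          obtain ⟨i, hi, hp⟩ := hp
          exact (mem_filter.1 hp).2.trans (dvd_prod_of_mem _ hi)
    have h4 : ∏ i ∈ I, ff κ0 i E ≤ (D ^ 2) ^ (2 * K) := by
      calc ∏ i ∈ I, ff κ0 i E ≤ (D ^ 2) ^ I.card := by
            apply prod_le_pow_card
            intro i hi
            rw [hI, mem_product, mem_Ico, mem_range] at hi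
            refine (ff_le hi.1.2 hi.2 hκD.le hE2).trans ?_
            rw [pow_two]
            exact Nat.mul_le_mul_right _ (by omega)
        _ ≤ (D ^ 2) ^ (2 * K) := by
            apply Nat.pow_le_pow_right (Nat.pow_pos (by omega))
            rw [hI, card_product, Nat.card_Ico, card_range, hK]
            calc (M - 1) * (2 * κ0) ≤ M * (2 * κ0) := Nat.mul_le_mul_right _ (by omega)
              _ = 2 * (M * κ0) := by ring
    calc W ≤ (∏ p ∈ (range D0).filter Nat.Prime, p) * ∏ p ∈ T, p := h1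
      _ ≤ D ^ D0 * (D ^ 2) ^ (2 * K) := Nat.mul_le_mul h2 (h3.trans h4)
      _ = D ^ (D0 + 4 * K) := by
          rw [← pow_mul, ← pow_add]
          congr 1
          ring
      _ ≤ D ^ (D0 + 4 * K + 3 * M + 768 * K ^ 2 * M) := by
          apply Nat.pow_le_pow_right (by omega)
          omega

end Pool.Agent.Helper37.MT
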